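import Pool.Agent.Y875.UE.Stm
import Pool.Agent.Y875.FP.Ex

set_option autoImplicit false

/-!
Project UE (owner helper875), job ZERO: the trivial character.
-/

namespace Pool.Agent.Y508.UE

open Finset Pool.Agent.Y875.UE Pool.Agent.Y875.FP

/-- the index function on powers -/
lemma idx_pow {E : Type} [Field E] {k : ℕ} {z : E} {l : E → ZMod (2 ^ k)} (hl : IsIdx k z l)
    (x : E) (hx : x ≠ 0) (n : ℕ) : l (x ^ n) = n * l x := by
  have h1 : l 1 = 0 := by
    have := hl.mul 1 1 one_ne_zero one_ne_zero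
    rw [mul_one] at this
    exact left_eq_add.1 this
  induction n with
  | zero => simp [h1]
  | succ n ih =>
    rw [pow_succ, hl.mul _ _ (pow_ne_zero _ hx) hx, ih]
    push_cast
    ring

lemma idx_prod {E : Type} [Field E] {k : ℕ} {z : E} {l : E → ZMod (2 ^ k)} (hl : IsIdx k z l)
    {ι : Type} (s : Finset ι) (F : ι → E) (hF : ∀ i ∈ s, F i ≠ 0) :
    l (∏ i ∈ s, F i) = ∑ i ∈ s, l (F i) := by
  classical
  have h1 : l 1 = 0 := by
    have := hl.mul 1 1 one_ne_zero one_ne_zero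
    rw [mul_one] at this
    exact left_eq_add.1 this
  induction s using Finset.induction_on with
  | empty => simpa using h1
  | insert a s ha ih =>
    rw [prod_insert ha, sum_insert ha, hl.mul _ _ (hF a (mem_insert_self a s))
      (prod_ne_zero_iff.2 fun i hi => hF i (mem_insert_of_mem hi)),
      ih fun i hi => hF i (mem_insert_of_mem hi)]

/-- `F t = floor (q t / 2^k)` -/
def Fl (q k : ℕ) (t : (ZMod (2 ^ k))ˣ) : ℕ := q * (t : ZMod (2 ^ k)).val / 2 ^ k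

lemma Fl_le {q k : ℕ} (hq : 0 < q) (t : (ZMod (2 ^ k))ˣ) : Fl q k t ≤ q - 1 := by
  unfold Fl
  have h1 := ZMod.val_lt (t : ZMod (2 ^ k))
  have h2 : q * (t : ZMod (2 ^ k)).val < q * 2 ^ k := Nat.mul_lt_mul_of_pos_left h1 hq
  have h3 : q * (t : ZMod (2 ^ k)).val / 2 ^ k < q := Nat.div_lt_of_lt_mul (by rw [mul_comm (2 ^ k) q]; exact h2)
  omega

lemma wt_neg {q k : ℕ} (hq : Odd q) (hk : 1 ≤ k) (t : (ZMod (2 ^ k))ˣ) :
    wt q k (-t) = Fl q k t := by
  have hle := Fl_le hq.pos t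
  unfold wt
  unfold Fl at hle ⊢
  have hcop : Nat.Coprime (t : ZMod (2 ^ k)).val (2 ^ k) := ZMod.val_coe_unit_coprime t
  have h2k : 2 ≤ 2 ^ k := by
    calc 2 = 2 ^ 1 := rfl
      _ ≤ 2 ^ k := Nat.pow_le_pow_right (by norm_num) hk
  have hlt := ZMod.val_lt (t : ZMod (2 ^ k))
  have hne : (t : ZMod (2 ^ k)) ≠ 0 := by
    intro h0
    rw [h0, ZMod.val_zero, Nat.coprime_zero_left] at hcop
    omega
  have hval : ((-t : (ZMod (2 ^ k))ˣ) : ZMod (2 ^ k)).val = 2 ^ k - (t : ZMod (2 ^ k)).val := by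
    rw [Units.val_neg, ZMod.neg_val, if_neg hne]
  rw [hval]
  set a := (t : ZMod (2 ^ k)).val with ha
  set N := 2 ^ k with hN
  have hqN : Nat.Coprime q N := by
    rw [hN]
    exact Nat.Coprime.pow_right _ (Nat.coprime_two_right.2 hq)
  have hr : q * a % N ≠ 0 := by
    intro h0
    have hd : N ∣ q * a := Nat.dvd_of_mod_eq_zero h0
    have hd2 : N ∣ a := hqN.symm.dvd_of_dvd_mul_left hd
    have ha0 : a ≠ 0 := by
      intro h
      rw [h, Nat.coprime_zero_left] at hcop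
      omega
    exact absurd (Nat.le_of_dvd (Nat.pos_of_ne_zero ha0) hd2) (by omega)
  have hdm := Nat.div_add_mod (q * a) N
  have hrlt : q * a % N < N := Nat.mod_lt _ (by omega)
  have hq1 := hq.pos
  set F := q * a / N with hF
  set r := q * a % N with hrr
  have hkey : q * (N - a) = N * (q - 1 - F) + (N - r) := by
    have h1 : q * (N - a) + q * a = q * N := by
      rw [← mul_add]
      congr 1
      omega
    have h2 : N * (q - 1 - F) + N * F + N = N * q := by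
      have : q - 1 - F + F + 1 = q := by omega
      calc N * (q - 1 - F) + N * F + N = N * (q - 1 - F + F + 1) := by ring
        _ = N * q := by rw [this]
    have h3 : q * N = N * q := mul_comm _ _
    have h4 : N - r + r = N := Nat.sub_add_cancel hrlt.le
    generalize N - r = h at h4 ⊢
    generalize q * a = f at *
    generalize q * (N - a) = f' at *
    linarith
  have hNpos : 0 < N := by omega
  have hlt2 : N - r < N := by omega
  rw [hkey, Nat.mul_add_div hNpos, Nat.div_eq_of_lt hlt2, add_zero]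
  exact Nat.sub_sub_self hle

theorem t (hORB : S_ORB) : S_ZERO := by
  intro q e u k f M _ hL E _ _ _ hcard z hz l hl g hg
  have hk3 := hL.hk
  obtain ⟨m, rfl⟩ : ∃ m, k = m + 1 := ⟨k - 1, by omega⟩
  simp only [Nat.add_sub_cancel] at hz hg ⊢
  have hq0 : 0 < q := hL.prime.pos
  -- `2 ≠ 0` in `E`
  have h2Z : (2 : ZMod q) ≠ 0 := by
    intro h
    have h' : ((2 : ℕ) : ZMod q) = 0 := by exact_mod_cast h
    rw [ZMod.natCast_eq_zero_iff] at h'
    have h2 := (Nat.prime_dvd_prime_iff_eq hL.prime Nat.prime_two).1 h'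
    have := hL.odd
    rw [h2] at this
    exact absurd this (by decide)
  have h2E : (2 : E) ≠ 0 := by
    have h := (map_ne_zero (algebraMap (ZMod q) E)).2 h2Z
    rwa [map_ofNat] at h
  have h2pow : (2 : E) ^ (q - 1) = 1 := by
    have h := ZMod.pow_card_sub_one_eq_one h2Z
    have h' := congrArg (algebraMap (ZMod q) E) h
    rwa [map_pow, map_ofNat, map_one] at h'
  have hneg1 : (-1 : E) ≠ 1 := by
    intro h
    apply h2E
    have : (1 : E) + 1 = 0 := by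
      nth_rewrite 1 [← h]
      ring
    rw [← this]; norm_num
  have hz0 : z ≠ 0 := by
    intro h
    rw [h, zero_pow (by positivity)] at hz
    exact absurd hz (by simp)
  have hzN : z ^ (2 ^ (m + 1)) = 1 := by
    have : (2 : ℕ) ^ (m + 1) = 2 ^ m * 2 := by ring
    rw [this, pow_mul, hz]; ring
  have hzu : (z ^ u) ^ (2 ^ m) = -1 := by
    rw [← pow_mul, mul_comm, pow_mul, hz, hL.hu.neg_one_pow]
  have hzuN : (z ^ u) ^ (2 ^ (m + 1)) = 1 := by
    rw [← pow_mul, mul_comm, pow_mul, hzN, one_pow]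
  have hodd : ∀ t : (ZMod (2 ^ (m + 1)))ˣ, Odd (t : ZMod (2 ^ (m + 1))).val := by
    intro t
    have h := ZMod.val_coe_unit_coprime t
    have : Nat.Coprime (t : ZMod (2 ^ (m + 1))).val 2 :=
      Nat.Coprime.coprime_dvd_right (dvd_pow_self 2 (by omega)) h
    rwa [Nat.coprime_two_right] at this
  have hl1 : l 1 = 0 := by
    have := idx_pow hl z hz0 0
    simpa using this
  have hlneg : l (-1) = (2 : ZMod (2 ^ (m + 1))) ^ m := by
    have := idx_pow hl z hz0 (2 ^ m)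
    rw [hz, hl.gen] at this
    rw [this]
    push_cast
    ring
  -- the values `1 - z^(u a)`
  have hexu : ∀ a : ZMod (2 ^ (m + 1)), z ^ (u * a.val) = ex (z ^ u) a := by
    intro a
    rw [pow_mul]
    rfl
  have hne : ∀ t : (ZMod (2 ^ (m + 1)))ˣ, 1 - ex (z ^ u) (t : ZMod (2 ^ (m + 1))) ≠ 0 := by
    intro t h
    have h1 : ex (z ^ u) (t : ZMod (2 ^ (m + 1))) = 1 := (sub_eq_zero.1 h).symm
    have h2 : (ex (z ^ u) (t : ZMod (2 ^ (m + 1)))) ^ (2 ^ m) = -1 := by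
      change ((z ^ u) ^ (t : ZMod (2 ^ (m + 1))).val) ^ (2 ^ m) = -1
      rw [← pow_mul, mul_comm, pow_mul, hzu, (hodd t).neg_one_pow]
    rw [h1, one_pow] at h2
    exact hneg1 h2.symm
  set lam : (ZMod (2 ^ (m + 1)))ˣ → ZMod (2 ^ (m + 1)) := fun t =>
    l (1 - z ^ (u * ((t⁻¹ : (ZMod (2 ^ (m + 1)))ˣ) : ZMod (2 ^ (m + 1))).val)) with hlam
  have hlamneg : ∀ t, lam (-t) = (2 : ZMod (2 ^ (m + 1))) ^ m -
      u * ((t⁻¹ : (ZMod (2 ^ (m + 1)))ˣ) : ZMod (2 ^ (m + 1))) + lam t := by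
    intro t
    have hinv : (((-t)⁻¹ : (ZMod (2 ^ (m + 1)))ˣ) : ZMod (2 ^ (m + 1))) =
        -((t⁻¹ : (ZMod (2 ^ (m + 1)))ˣ) : ZMod (2 ^ (m + 1))) := by
      rw [inv_neg, Units.val_neg]
    simp only [hlam]
    rw [hinv, hexu, hexu]
    set a : (ZMod (2 ^ (m + 1)))ˣ := t⁻¹ with ha
    have e1 := ex_neg_mul hzuN (a : ZMod (2 ^ (m + 1)))
    have e2 : (1 - ex (z ^ u) (-(a : ZMod (2 ^ (m + 1))))) * ex (z ^ u) (a : ZMod (2 ^ (m + 1))) =
        (-1) * (1 - ex (z ^ u) (a : ZMod (2 ^ (m + 1)))) := by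
      rw [sub_mul, e1]; ring
    have hne1 : 1 - ex (z ^ u) (-(a : ZMod (2 ^ (m + 1)))) ≠ 0 := by
      have := hne (-a)
      rwa [Units.val_neg] at this
    have hne2 : ex (z ^ u) (a : ZMod (2 ^ (m + 1))) ≠ 0 := pow_ne_zero _ (pow_ne_zero _ hz0)
    have e3 := congrArg l e2
    rw [hl.mul _ _ hne1 hne2, hl.mul _ _ (by simp) (hne a), hlneg] at e3
    have e4 : l (ex (z ^ u) (a : ZMod (2 ^ (m + 1)))) = u * (a : ZMod (2 ^ (m + 1))) := by
      rw [← hexu, idx_pow hl z hz0, hl.gen]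
      push_cast
      rw [ZMod.natCast_zmod_val]
      ring
    rw [e4] at e3
    linear_combination e3
  -- the sum of all values
  have hsumlam : ∑ t, lam t = l 2 := by
    have h := prod_one_sub m (z ^ u) 1 hzu
    rw [one_pow] at h
    have h2 : (1 : E) + 1 = 2 := by norm_num
    rw [h2] at h
    rw [← h]
    rw [idx_prod hl univ _ ?_]
    · refine sum_congr rfl fun t _ => ?_
      simp only [hlam]
      rw [hexu, one_mul]
    · intro t _
      rw [one_mul]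
      exact hne _
  have hq1 : ((q : ZMod (2 ^ (m + 1))) - 1) * l 2 = 0 := by
    have h := idx_pow hl 2 h2E (q - 1)
    rw [h2pow, hl1, Nat.cast_sub hq0] at h
    rw [h]
    push_cast
    ring
  -- weights
  have hwF : ∀ t : (ZMod (2 ^ (m + 1)))ˣ, (wt q (m + 1) t : ZMod (2 ^ (m + 1))) +
      Fl q (m + 1) t = q - 1 := by
    intro t
    have h1 := Fl_le hq0 t
    have h2 : wt q (m + 1) t + Fl q (m + 1) t + 1 = q := by
      unfold wt
      unfold Fl at h1 ⊢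
      omega
    have h3 := congrArg (Nat.cast : ℕ → ZMod (2 ^ (m + 1))) h2
    push_cast at h3
    linear_combination h3
  set S : ZMod (2 ^ (m + 1)) := ∑ t, (wt q (m + 1) t : ZMod (2 ^ (m + 1))) * lam t with hS
  have hS2 : S = ∑ t, (Fl q (m + 1) t : ZMod (2 ^ (m + 1))) * ((2 : ZMod (2 ^ (m + 1))) ^ m -
      u * ((t⁻¹ : (ZMod (2 ^ (m + 1)))ˣ) : ZMod (2 ^ (m + 1))) + lam t) := by
    rw [hS, ← Equiv.sum_comp (Equiv.neg (ZMod (2 ^ (m + 1)))ˣ)]
    refine sum_congr rfl fun t _ => ?_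
    rw [Equiv.neg_apply, wt_neg hL.odd (by omega), hlamneg]
  -- the orbit sum
  have hcop : Nat.Coprime q (2 ^ (m + 1)) :=
    Nat.Coprime.pow_right _ (Nat.coprime_two_right.2 hL.odd)
  obtain ⟨S', g', h1, h2⟩ := hORB q e u (m + 1) f M hL ℤ (fun _ => 1)
    (ZMod.unitOfCoprime q hcop) (ZMod.coe_unitOfCoprime q hcop) (fun _ => rfl)
  have hcardU : (Fintype.card (ZMod (2 ^ (m + 1)))ˣ) = 2 ^ m := by
    rw [ZMod.card_units_eq_totient, Nat.totient_prime_pow Nat.prime_two (by omega)]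
    simp
  have hf0 : (f : ℤ) ≠ 0 := by
    intro h
    have hf : f = 0 := by exact_mod_cast h
    have hc := hL.card
    rw [hf, pow_zero] at hc
    have hM := hL.hM.pos
    have : 0 < 2 ^ (m + 1) * M := by positivity
    omega
  have hS'g : S' = g := by
    have hgz : (g : ℤ) * f = 2 ^ m := by exact_mod_cast hg
    have h3 : (f : ℤ) * S' = 2 ^ m := by
      rw [h1, sum_const, card_univ, hcardU]
      simp
    apply mul_left_cancel₀ hf0
    rw [h3, ← hgz]; ring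
  rw [hS'g] at h2
  have h2c := congrArg (Int.cast : ℤ → ZMod (2 ^ (m + 1))) h2
  have h2p : (2 : ZMod (2 ^ (m + 1))) ^ (m + 1) = 0 := by
    have := ZMod.natCast_self (2 ^ (m + 1))
    exact_mod_cast this
  have hwt : ∑ t : (ZMod (2 ^ (m + 1)))ˣ, (wt q (m + 1) t : ZMod (2 ^ (m + 1))) *
      ((t⁻¹ : (ZMod (2 ^ (m + 1)))ˣ) : ZMod (2 ^ (m + 1))) = -(q * M * g) := by
    push_cast at h2c
    rw [h2p, zero_mul, add_zero] at h2c
    rw [← h2c]
    refine sum_congr rfl fun t _ => ?_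
    rw [mul_one, ZMod.natCast_zmod_val]
  -- the sum of all units
  have hsumt : (2 : ZMod (2 ^ (m + 1))) * ∑ t : (ZMod (2 ^ (m + 1)))ˣ,
      ((t⁻¹ : (ZMod (2 ^ (m + 1)))ˣ) : ZMod (2 ^ (m + 1))) = 0 := by
    have h3 : ∑ t : (ZMod (2 ^ (m + 1)))ˣ, ((t⁻¹ : (ZMod (2 ^ (m + 1)))ˣ) : ZMod (2 ^ (m + 1))) =
        -∑ t : (ZMod (2 ^ (m + 1)))ˣ, ((t⁻¹ : (ZMod (2 ^ (m + 1)))ˣ) : ZMod (2 ^ (m + 1))) := by
      conv_lhs => rw [← Equiv.sum_comp (Equiv.neg (ZMod (2 ^ (m + 1)))ˣ)]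
      rw [← sum_neg_distrib]
      refine sum_congr rfl fun t _ => ?_
      rw [Equiv.neg_apply, inv_neg, Units.val_neg]
    linear_combination h3
  obtain ⟨c, hc⟩ : ∃ c : ℕ, q = 2 * c + 1 := hL.odd
  have hq1t : ((q : ZMod (2 ^ (m + 1))) - 1) * ∑ t : (ZMod (2 ^ (m + 1)))ˣ,
      ((t⁻¹ : (ZMod (2 ^ (m + 1)))ˣ) : ZMod (2 ^ (m + 1))) = 0 := by
    have : (q : ZMod (2 ^ (m + 1))) - 1 = c * 2 := by rw [hc]; push_cast; ring
    rw [this, mul_assoc, hsumt, mul_zero]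
  have hFt : ∑ t : (ZMod (2 ^ (m + 1)))ˣ, (Fl q (m + 1) t : ZMod (2 ^ (m + 1))) *
      ((t⁻¹ : (ZMod (2 ^ (m + 1)))ˣ) : ZMod (2 ^ (m + 1))) = q * M * g := by
    have h3 : ∑ t : (ZMod (2 ^ (m + 1)))ˣ, (Fl q (m + 1) t : ZMod (2 ^ (m + 1))) *
      ((t⁻¹ : (ZMod (2 ^ (m + 1)))ˣ) : ZMod (2 ^ (m + 1))) +
      ∑ t : (ZMod (2 ^ (m + 1)))ˣ, (wt q (m + 1) t : ZMod (2 ^ (m + 1))) *
      ((t⁻¹ : (ZMod (2 ^ (m + 1)))ˣ) : ZMod (2 ^ (m + 1))) = 0 := by
      rw [← sum_add_distrib, ← hq1t, mul_sum]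
      refine sum_congr rfl fun t _ => ?_
      rw [← hwF t]; ring
    linear_combination h3 - hwt
  -- twice the sum
  have h2S : 2 * S = (2 : ZMod (2 ^ (m + 1))) ^ m *
      (∑ t, (Fl q (m + 1) t : ZMod (2 ^ (m + 1)))) - u * (q * M * g) := by
    have h3 : S + S = ((q : ZMod (2 ^ (m + 1))) - 1) * (∑ t, lam t) +
        (2 : ZMod (2 ^ (m + 1))) ^ m * (∑ t, (Fl q (m + 1) t : ZMod (2 ^ (m + 1)))) -
        u * ∑ t : (ZMod (2 ^ (m + 1)))ˣ, (Fl q (m + 1) t : ZMod (2 ^ (m + 1))) *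
        ((t⁻¹ : (ZMod (2 ^ (m + 1)))ˣ) : ZMod (2 ^ (m + 1))) := by
      conv_lhs =>
        congr
        · rw [hS]
        · rw [hS2]
      rw [mul_sum, mul_sum, mul_sum, ← sum_add_distrib, ← sum_add_distrib, ← sum_sub_distrib]
      refine sum_congr rfl fun t _ => ?_
      rw [← hwF t]; ring
    rw [hsumlam, hq1, hFt] at h3
    linear_combination h3
  -- back to the integers
  set SZ : ℤ := ∑ t : (ZMod (2 ^ (m + 1)))ˣ, (wt q (m + 1) t : ℤ) *
      ((l (1 - z ^ (u * ((t⁻¹ : (ZMod (2 ^ (m + 1)))ˣ) : ZMod (2 ^ (m + 1))).val))).val : ℤ)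
    with hSZ
  have hSZc : (SZ : ZMod (2 ^ (m + 1))) = S := by
    rw [hSZ, hS]
    push_cast
    refine sum_congr rfl fun t _ => ?_
    rw [ZMod.natCast_zmod_val]
  have hdvd : ((2 ^ (m + 1) : ℕ) : ℤ) ∣ 2 * SZ + (q : ℤ) * u * M * g -
      2 ^ m * ∑ t : (ZMod (2 ^ (m + 1)))ˣ, (Fl q (m + 1) t : ℤ) := by
    rw [← ZMod.intCast_zmod_eq_zero_iff_dvd]
    push_cast
    rw [hSZc]
    linear_combination h2S
  obtain ⟨c', hc'⟩ := hdvd
  refine ⟨(∑ t : (ZMod (2 ^ (m + 1)))ˣ, (Fl q (m + 1) t : ℤ)) + 2 * c', ?_⟩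
  push_cast at hc'
  linear_combination hc'

end Pool.Agent.Y508.UE
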